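import Pool.Agent.Helper4.TH.StD

/-! # Project TH: module ExA (the edge function of a solution of the relations) -/

set_option autoImplicit false

namespace Pool.Agent.Helper70.TH

open Pool.Agent.Helper14.W5 (tr5 S5Trm)
open Pool.Agent.Helper4.TH Pool.Agent.Helper93.TLH

private theorem ndm {a b : ℤ} (ha : ¬ (5 : ℤ) ∣ a) (hb : ¬ (5 : ℤ) ∣ b) : ¬ (5 : ℤ) ∣ a * b := by
  intro h
  rcases (Int.prime_ofNat_iff.2 (by norm_num : Nat.Prime 5)).dvd_or_dvd h with h | h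
  · exact ha h
  · exact hb h

private theorem cop {r : ℕ} {a : ℤ} (h : ¬ (5 : ℤ) ∣ a) : IsUnit ((a : ℤ) : ZMod (5 ^ r)) := by
  have h1 : IsCoprime a 5 := by
    have := (Int.prime_ofNat_iff.2 (by norm_num : Nat.Prime 5)).coprime_iff_not_dvd.2 h
    exact this.symm
  have h2 : IsCoprime a ((5 ^ r : ℕ) : ℤ) := by
    push_cast
    exact h1.pow_right
  exact (ZMod.coe_int_isUnit_iff_isCoprime a (5 ^ r)).2 h2.symm

private theorem den {r : ℕ} {a c : ℤ} (x : ZMod (5 ^ r)) (h : ¬ (5 : ℤ) ∣ a) :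
    IsUnit ((a : ZMod (5 ^ r)) + 5 * c * x) := by
  have : NeZero (5 ^ r) := ⟨pow_ne_zero _ (by norm_num)⟩
  have : (a : ZMod (5 ^ r)) + 5 * c * x = ((a + 5 * c * (x.val : ℤ) : ℤ) : ZMod (5 ^ r)) := by
    push_cast
    rw [ZMod.natCast_zmod_val]
  rw [this]
  apply cop
  intro h3
  exact h ((dvd_add_left (⟨c * (x.val : ℤ), by ring⟩ : (5 : ℤ) ∣ 5 * c * (x.val : ℤ))).1 h3)

private theorem res {a b c d : ℤ} (h : ¬ (5 : ℤ) ∣ a * d - 5 * (b * c)) :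
    ¬ (5 : ℤ) ∣ a ∧ ¬ (5 : ℤ) ∣ d := by
  constructor
  · rintro ⟨k, rfl⟩
    exact h ⟨k * d - b * c, by ring⟩
  · rintro ⟨k, rfl⟩
    exact h ⟨a * k - b * c, by ring⟩

/-- `(a b; 5c d)` has the coordinates `(x, y)` -/
private def Pt {r s : ℕ} (a b c d : ℤ) (x : ZMod (5 ^ r)) (y : ZMod (5 ^ s)) : Prop :=
  ¬ (5 : ℤ) ∣ a ∧ ¬ (5 : ℤ) ∣ d ∧ (b : ZMod (5 ^ r)) = x * a ∧ (c : ZMod (5 ^ s)) = y * d

private theorem pt_mk (r s : ℕ) {a b c d : ℤ} (ha : ¬ (5 : ℤ) ∣ a) (hd : ¬ (5 : ℤ) ∣ d) :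
    ∃ (x : ZMod (5 ^ r)) (y : ZMod (5 ^ s)), Pt a b c d x y := by
  refine ⟨(b : ZMod (5 ^ r)) * (a : ZMod (5 ^ r))⁻¹, (c : ZMod (5 ^ s)) * (d : ZMod (5 ^ s))⁻¹,
    ha, hd, ?_, ?_⟩
  · rw [mul_assoc, ZMod.inv_mul_of_unit _ (cop ha), mul_one]
  · rw [mul_assoc, ZMod.inv_mul_of_unit _ (cop hd), mul_one]

private theorem pt_scale {r s : ℕ} {a b c d k A B C D : ℤ} {x : ZMod (5 ^ r)} {y : ZMod (5 ^ s)}
    (h : Pt a b c d x y) (hk : ¬ (5 : ℤ) ∣ k) (hA : A = k * a) (hB : B = k * b) (hC : C = k * c)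
    (hD : D = k * d) : Pt A B C D x y := by
  obtain ⟨h1, h2, h3, h4⟩ := h
  subst hA hB hC hD
  refine ⟨ndm hk h1, ndm hk h2, ?_, ?_⟩
  · push_cast
    rw [h3]
    ring
  · push_cast
    rw [h4]
    ring

private theorem pt_mul {r s : ℕ} {a b c d : ℤ} {x : ZMod (5 ^ r)} {y : ZMod (5 ^ s)}
    (h : Pt a b c d x y) {α β γ δ : ℤ} (hα : ¬ (5 : ℤ) ∣ α) (hδ : ¬ (5 : ℤ) ∣ δ) :
    Pt (a * α + 5 * b * γ) (a * β + b * δ) (c * α + d * γ) (5 * c * β + d * δ)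
      (((β : ZMod (5 ^ r)) + (δ : ZMod (5 ^ r)) * x) *
        ((α : ZMod (5 ^ r)) + 5 * (γ : ZMod (5 ^ r)) * x)⁻¹)
      (((γ : ZMod (5 ^ s)) + (α : ZMod (5 ^ s)) * y) *
        ((δ : ZMod (5 ^ s)) + 5 * (β : ZMod (5 ^ s)) * y)⁻¹) := by
  obtain ⟨h1, h2, h3, h4⟩ := h
  have u1 := ZMod.inv_mul_of_unit _ (den (r := r) (a := α) (c := γ) x hα)
  have u2 := ZMod.inv_mul_of_unit _ (den (r := s) (a := δ) (c := β) y hδ)
  refine ⟨?_, ?_, ?_, ?_⟩
  · intro h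
    exact ndm h1 hα ((dvd_add_left (⟨b * γ, by ring⟩ : (5 : ℤ) ∣ 5 * b * γ)).1 h)
  · intro h
    exact ndm h2 hδ ((dvd_add_right (⟨c * β, by ring⟩ : (5 : ℤ) ∣ 5 * c * β)).1 h)
  · push_cast
    rw [h3]
    linear_combination (-((a : ZMod (5 ^ r)) * ((β : ZMod (5 ^ r)) + δ * x))) * u1
  · push_cast
    rw [h4]
    linear_combination (-((d : ZMod (5 ^ s)) * ((γ : ZMod (5 ^ s)) + α * y))) * u2

private theorem pt_left {r s : ℕ} {a b c d : ℤ} {x : ZMod (5 ^ r)} {y : ZMod (5 ^ s)}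
    (h : Pt a b c d x y) {α β γ δ A B C D : ℤ} (hα : ¬ (5 : ℤ) ∣ α) (hδ : ¬ (5 : ℤ) ∣ δ)
    (hA : A = α * a + 5 ^ r * β * (5 * c)) (hB : B = α * b + 5 ^ r * β * d)
    (hC : C = 5 ^ s * γ * a + δ * c) (hD : D = 5 ^ (s + 1) * γ * b + δ * d) : Pt A B C D x y := by
  obtain ⟨h1, h2, h3, h4⟩ := h
  subst hA hB hC hD
  have z1 : ((5 : ℤ) ^ r : ZMod (5 ^ r)) = 0 := by
    have := ZMod.natCast_self (5 ^ r)
    push_cast at this ⊢
    exact this
  have z2 : ((5 : ℤ) ^ s : ZMod (5 ^ s)) = 0 := by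
    have := ZMod.natCast_self (5 ^ s)
    push_cast at this ⊢
    exact this
  refine ⟨?_, ?_, ?_, ?_⟩
  · intro h
    exact ndm hα h1 ((dvd_add_left
      (⟨5 ^ r * β * c, by ring⟩ : (5 : ℤ) ∣ 5 ^ r * β * (5 * c))).1 h)
  · intro h
    exact ndm hδ h2 ((dvd_add_right
      (⟨5 ^ s * γ * b, by ring⟩ : (5 : ℤ) ∣ 5 ^ (s + 1) * γ * b)).1 h)
  · push_cast at z1 ⊢
    rw [z1, h3]
    ring
  · push_cast at z2 ⊢
    rw [pow_succ, z2, h4]
    ring

/-! ### the function -/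

private noncomputable def PX (r : ℕ) (a b : ℤ) : ZMod (5 ^ r) :=
  ((b : ℤ) : ZMod (5 ^ r)) * ((a : ℤ) : ZMod (5 ^ r))⁻¹

private theorem px_eq {r : ℕ} {a b A B : ℤ} {x : ZMod (5 ^ r)} (hA : A = a) (hB : B = b)
    (ha : ¬ (5 : ℤ) ∣ a) (h : (b : ZMod (5 ^ r)) = x * a) : PX r A B = x := by
  subst hA hB
  unfold PX
  rw [h, mul_assoc, ZMod.mul_inv_of_unit _ (cop ha), mul_one]

section

variable {R : Type} [AddCommGroup R] {r s : ℕ} (F : Fin 2 → ZMod (5 ^ r) → ZMod (5 ^ s) → R)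

private noncomputable def W (a b c d : ℤ) : R :=
  if c % 5 = 0 then F 0 (PX r a b) (PX s d (c / 5))
  else if (c - 2 * d) % 5 = 0 then F 1 (PX r (a - 2 * b) b) (PX s d ((c - 2 * d) / 5))
  else kH F (PX r (2 * a - 2 * b) (-a + 2 * b)) (PX s (-c + 2 * d) ((2 * c - 2 * d) / 5))

private noncomputable def V (a b c d : ℤ) : R :=
  if c % 5 = 0 ∨ (c - 2 * d) % 5 = 0 ∨ (c - d) % 5 = 0 then W F a b c d
  else -W F (2 * b) (-a) (2 * d) (-c)

/-- `v` is the value of a matrix in one of the three classes `0`, `2`, `1`. -/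
private def Val (a b c d : ℤ) (v : R) : Prop :=
  (∃ (c' : ℤ) (x : ZMod (5 ^ r)) (y : ZMod (5 ^ s)), c = 5 * c' ∧ Pt a b c' d x y ∧ v = F 0 x y) ∨
  (∃ (c' : ℤ) (x : ZMod (5 ^ r)) (y : ZMod (5 ^ s)), c = 5 * c' + 2 * d ∧
    Pt (a - 2 * b) b c' d x y ∧ v = F 1 x y) ∨
  (∃ (c' : ℤ) (x : ZMod (5 ^ r)) (y : ZMod (5 ^ s)), 2 * c = 5 * c' + 2 * d ∧
    Pt (2 * a - 2 * b) (-a + 2 * b) c' (-c + 2 * d) x y ∧ v = kH F x y)

variable {F}

private theorem val_W {a b c d : ℤ} {v : R} (h : Val F a b c d v) : W F a b c d = v := by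
  unfold W
  rcases h with ⟨c', x, y, e, ⟨h1, h2, h3, h4⟩, rfl⟩ | ⟨c', x, y, e, ⟨h1, h2, h3, h4⟩, rfl⟩ |
    ⟨c', x, y, e, ⟨h1, h2, h3, h4⟩, rfl⟩
  · rw [if_pos (by omega), px_eq rfl rfl h1 h3, px_eq rfl (by omega) h2 h4]
  · rw [if_neg (by omega), if_pos (by omega), px_eq rfl rfl h1 h3, px_eq rfl (by omega) h2 h4]
  · rw [if_neg (by omega), if_neg (by omega), px_eq rfl rfl h1 h3, px_eq rfl (by omega) h2 h4]

private theorem val_V {a b c d : ℤ} {v : R} (h : Val F a b c d v) : V F a b c d = v := by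
  have h0 := val_W h
  unfold V
  rcases h with ⟨c', x, y, e, ⟨h1, h2, h3, h4⟩, -⟩ | ⟨c', x, y, e, ⟨h1, h2, h3, h4⟩, -⟩ |
    ⟨c', x, y, e, ⟨h1, h2, h3, h4⟩, -⟩
  · rw [if_pos (by omega), h0]
  · rw [if_pos (by omega), h0]
  · rw [if_pos (by omega), h0]

private theorem val_VS {a b c d : ℤ} {v : R} (h : Val F (2 * b) (-a) (2 * d) (-c) v) :
    V F a b c d = -v := by
  have h0 := val_W h
  unfold V
  rcases h with ⟨c', x, y, e, ⟨h1, h2, h3, h4⟩, -⟩ | ⟨c', x, y, e, ⟨h1, h2, h3, h4⟩, -⟩ |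
    ⟨c', x, y, e, ⟨h1, h2, h3, h4⟩, -⟩
  · rw [if_neg (by omega), h0]
  · rw [if_neg (by omega), h0]
  · rw [if_neg (by omega), h0]

private theorem val_scale {a b c d k A B C D : ℤ} {v : R} (h : Val F a b c d v)
    (hk : ¬ (5 : ℤ) ∣ k) (hA : A = k * a) (hB : B = k * b) (hC : C = k * c) (hD : D = k * d) :
    Val F A B C D v := by
  subst hA hB hC hD
  rcases h with ⟨c', x, y, e, hp, rfl⟩ | ⟨c', x, y, e, hp, rfl⟩ | ⟨c', x, y, e, hp, rfl⟩
  · exact Or.inl ⟨k * c', x, y, by rw [e]; ring, pt_scale hp hk rfl rfl rfl rfl, rfl⟩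
  · exact Or.inr (Or.inl ⟨k * c', x, y, by rw [e]; ring,
      pt_scale hp hk (by ring) rfl rfl rfl, rfl⟩)
  · exact Or.inr (Or.inr ⟨k * c', x, y, by linear_combination k * e,
      pt_scale hp hk (by ring) (by ring) rfl (by ring), rfl⟩)

private theorem val_left {a b c d α β γ δ A B C D : ℤ} {v : R} (h : Val F a b c d v)
    (hα : ¬ (5 : ℤ) ∣ α) (hδ : ¬ (5 : ℤ) ∣ δ)
    (hA : A = α * a + 5 ^ r * β * c) (hB : B = α * b + 5 ^ r * β * d)
    (hC : C = 5 ^ (s + 1) * γ * a + δ * c) (hD : D = 5 ^ (s + 1) * γ * b + δ * d) :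
    Val F A B C D v := by
  subst hA hB hC hD
  rcases h with ⟨c', x, y, e, hp, rfl⟩ | ⟨c', x, y, e, hp, rfl⟩ | ⟨c', x, y, e, hp, rfl⟩
  · refine Or.inl ⟨5 ^ s * γ * a + δ * c', x, y, by rw [e]; ring, ?_, rfl⟩
    exact pt_left hp hα hδ (by rw [e]) rfl rfl rfl
  · refine Or.inr (Or.inl ⟨5 ^ s * γ * (a - 2 * b) + δ * c', x, y, by rw [e]; ring, ?_, rfl⟩)
    exact pt_left hp hα hδ (by rw [e]; ring) rfl rfl rfl
  · refine Or.inr (Or.inr ⟨5 ^ s * γ * (2 * a - 2 * b) + δ * c', x, y,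
      by linear_combination δ * e, ?_, rfl⟩)
    exact pt_left (α := α) (β := β) (γ := γ) (δ := δ) hp hα hδ
      (by linear_combination (5 ^ r * β) * e) (by ring) rfl (by ring)

private theorem cls1 : ∀ c d : ZMod 5, (c = 0 ∧ d = 0) ∨ c = 0 ∨ c - 2 * d = 0 ∨ c - d = 0 ∨
    d = 0 ∨ c + d = 0 ∨ c - 3 * d = 0 := by
  decide

private theorem e5d : ∀ z : ℤ, ((z : ℤ) : ZMod 5) = 0 → (5 : ℤ) ∣ z := fun z hz =>
  (ZMod.intCast_zmod_eq_zero_iff_dvd z 5).1 hz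

private theorem cl (c d : ℤ) : ((5 : ℤ) ∣ c ∧ (5 : ℤ) ∣ d) ∨ (5 : ℤ) ∣ c ∨ (5 : ℤ) ∣ c - 2 * d ∨
    (5 : ℤ) ∣ c - d ∨ (5 : ℤ) ∣ d ∨ (5 : ℤ) ∣ c + d ∨ (5 : ℤ) ∣ c - 3 * d := by
  rcases cls1 c d with ⟨p, q⟩ | p | p | p | p | p | p
  · exact Or.inl ⟨e5d _ p, e5d _ q⟩
  · exact Or.inr (Or.inl (e5d _ p))
  · exact Or.inr (Or.inr (Or.inl (e5d _ (by push_cast; exact p))))
  · exact Or.inr (Or.inr (Or.inr (Or.inl (e5d _ (by push_cast; exact p)))))
  · exact Or.inr (Or.inr (Or.inr (Or.inr (Or.inl (e5d _ p)))))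
  · exact Or.inr (Or.inr (Or.inr (Or.inr (Or.inr (Or.inl (e5d _ (by push_cast; exact p)))))))
  · exact Or.inr (Or.inr (Or.inr (Or.inr (Or.inr (Or.inr (e5d _ (by push_cast; exact p)))))))

private theorem fwd {a b c d : ℤ} (h : ¬ (5 : ℤ) ∣ a * d - b * c)
    (hc : (5 : ℤ) ∣ c ∨ (5 : ℤ) ∣ c - 2 * d ∨ (5 : ℤ) ∣ c - d) : ∃ v, Val F a b c d v := by
  rcases hc with ⟨c', hc'⟩ | ⟨c', hc'⟩ | ⟨c', hc'⟩
  · have hr := res (a := a) (b := b) (c := c') (d := d) (by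
      have : a * d - 5 * (b * c') = a * d - b * c := by rw [hc']; ring
      rwa [this])
    obtain ⟨x, y, hp⟩ := pt_mk r s (b := b) (c := c') hr.1 hr.2
    exact ⟨_, Or.inl ⟨c', x, y, hc', hp, rfl⟩⟩
  · have hr := res (a := a - 2 * b) (b := b) (c := c') (d := d) (by
      have : (a - 2 * b) * d - 5 * (b * c') = a * d - b * c := by linear_combination b * hc'
      rwa [this])
    obtain ⟨x, y, hp⟩ := pt_mk r s (b := b) (c := c') hr.1 hr.2
    exact ⟨_, Or.inr (Or.inl ⟨c', x, y, by omega, hp, rfl⟩)⟩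
  · have hr := res (a := 2 * a - 2 * b) (b := -a + 2 * b) (c := 2 * c') (d := -c + 2 * d) (by
      have : (2 * a - 2 * b) * (-c + 2 * d) - 5 * ((-a + 2 * b) * (2 * c')) =
          2 * (a * d - b * c) := by linear_combination (2 * (-a + 2 * b)) * hc'
      rw [this]
      exact ndm (by decide) h)
    obtain ⟨x, y, hp⟩ := pt_mk r s (b := -a + 2 * b) (c := 2 * c') hr.1 hr.2
    exact ⟨_, Or.inr (Or.inr ⟨2 * c', x, y, by omega, hp, rfl⟩)⟩

private theorem cls {a b c d : ℤ} (h : ¬ (5 : ℤ) ∣ a * d - b * c) :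
    (∃ v, Val F a b c d v) ∨ (∃ v, Val F (2 * b) (-a) (2 * d) (-c) v) := by
  have h2 : ¬ (5 : ℤ) ∣ 2 * b * -c - -a * (2 * d) := by
    have : 2 * b * -c - -a * (2 * d) = 2 * (a * d - b * c) := by ring
    rw [this]
    exact ndm (by decide) h
  rcases cl c d with ⟨⟨c', hc⟩, ⟨d', hd⟩⟩ | p | p | p | p | p | p
  · exact absurd ⟨a * d' - b * c', by rw [hc, hd]; ring⟩ h
  · exact Or.inl (fwd h (Or.inl p))
  · exact Or.inl (fwd h (Or.inr (Or.inl p)))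
  · exact Or.inl (fwd h (Or.inr (Or.inr p)))
  · exact Or.inr (fwd h2 (Or.inl (by omega)))
  · exact Or.inr (fwd h2 (Or.inr (Or.inl (by omega))))
  · exact Or.inr (fwd h2 (Or.inr (Or.inr (by omega))))

private theorem V_scale {a b c d : ℤ} (h : ¬ (5 : ℤ) ∣ a * d - b * c) (k : ℤ)
    (hk : ¬ (5 : ℤ) ∣ k) {A B C D : ℤ} (hA : A = k * a) (hB : B = k * b) (hC : C = k * c)
    (hD : D = k * d) : V F A B C D = V F a b c d := by
  rcases cls (F := F) h with ⟨v, hv⟩ | ⟨v, hv⟩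
  · rw [val_V hv, val_V (val_scale hv hk hA hB hC hD)]
  · rw [val_VS hv]
    exact val_VS (val_scale hv hk (by rw [hB]; ring) (by rw [hA]; ring) (by rw [hD]; ring)
      (by rw [hC]; ring))

private theorem V_S {a b c d : ℤ} (h : ¬ (5 : ℤ) ∣ a * d - b * c) {A B C D : ℤ}
    (hA : A = 2 * b) (hB : B = -a) (hC : C = 2 * d) (hD : D = -c) :
    V F A B C D = -V F a b c d := by
  subst hA hB hC hD
  rcases cls (F := F) h with ⟨v, hv⟩ | ⟨v, hv⟩
  · rw [val_V hv]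
    exact val_VS (val_scale (k := -2) hv (by decide) (by ring) (by ring) (by ring) (by ring))
  · rw [val_VS hv, val_V hv, neg_neg]

private theorem V_left {a b c d α β γ δ A B C D : ℤ} (h : ¬ (5 : ℤ) ∣ a * d - b * c)
    (hα : ¬ (5 : ℤ) ∣ α) (hδ : ¬ (5 : ℤ) ∣ δ) (hβ : (5 : ℤ) ^ r ∣ β) (hγ : (5 : ℤ) ^ (s + 1) ∣ γ)
    (hA : A = α * a + β * c) (hB : B = α * b + β * d)
    (hC : C = γ * a + δ * c) (hD : D = γ * b + δ * d) :
    V F A B C D = V F a b c d := by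
  obtain ⟨β', rfl⟩ := hβ
  obtain ⟨γ', rfl⟩ := hγ
  rcases cls (F := F) h with ⟨v, hv⟩ | ⟨v, hv⟩
  · rw [val_V hv, val_V (val_left hv hα hδ hA hB hC hD)]
  · rw [val_VS hv]
    exact val_VS (val_left (β := β') (γ := γ') hv hα hδ (by rw [hB]; ring) (by rw [hA]; ring)
      (by rw [hD]; ring) (by rw [hC]; ring))

/-! ### values -/

private theorem ev0 {a b c d : ℤ} {x : ZMod (5 ^ r)} {y : ZMod (5 ^ s)} (hp : Pt a b c d x y)
    {A B C D : ℤ} (hA : A = a) (hB : B = b) (hC : C = 5 * c) (hD : D = d) :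
    V F A B C D = F 0 x y := by
  subst hA hB hC hD
  exact val_V (Or.inl ⟨c, x, y, rfl, hp, rfl⟩)

private theorem ev2 {a b c d : ℤ} {x : ZMod (5 ^ r)} {y : ZMod (5 ^ s)} (hp : Pt a b c d x y)
    {A B C D : ℤ} (hA : A = a + 2 * b) (hB : B = b) (hC : C = 5 * c + 2 * d) (hD : D = d) :
    V F A B C D = F 1 x y := by
  subst hA hB hC hD
  exact val_V (Or.inr (Or.inl ⟨c, x, y, rfl,
    pt_scale (k := 1) hp (by decide) (by ring) (by ring) (by ring) (by ring), rfl⟩))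

private theorem ev1 {a b c d : ℤ} {x : ZMod (5 ^ r)} {y : ZMod (5 ^ s)} (hp : Pt a b c d x y)
    {A B C D : ℤ} (hA : A = 2 * a + 2 * b) (hB : B = a + 2 * b) (hC : C = 10 * c + 2 * d)
    (hD : D = 5 * c + 2 * d) :
    V F A B C D = kH F x y := by
  subst hA hB hC hD
  exact val_V (Or.inr (Or.inr ⟨2 * c, x, y, by ring,
    pt_scale (k := 2) hp (by decide) (by ring) (by ring) (by ring) (by ring), rfl⟩))

/-! ### the square relation -/

private def Sq (F : Fin 2 → ZMod (5 ^ r) → ZMod (5 ^ s) → R) (a b c d : ℤ) : Prop :=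
  V F a b c d + V F (2 * a + 2 * b) (-a) (2 * c + 2 * d) (-c)
    + V F (a + 2 * b) (-a - b) (c + 2 * d) (-c - d)
    + V F (2 * b) (-a - 2 * b) (2 * d) (-c - 2 * d) = 0

private theorem ndet {a b c d : ℤ} (h : ¬ (5 : ℤ) ∣ a * d - b * c) (k : ℤ)
    (hk : ¬ (5 : ℤ) ∣ k) {m : ℤ} (hm : m = k * (a * d - b * c)) : ¬ (5 : ℤ) ∣ m := by
  rw [hm]
  exact ndm hk h

private theorem sq_rot {a b c d : ℤ} (h : ¬ (5 : ℤ) ∣ a * d - b * c)
    (hs : Sq F (2 * a + 2 * b) (-a) (2 * c + 2 * d) (-c)) : Sq F a b c d := by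
  unfold Sq at hs ⊢
  rw [V_scale (F := F) (a := a + 2 * b) (b := -a - b) (c := c + 2 * d) (d := -c - d)
      (ndet h 1 (by decide) (by ring)) 2 (by decide)
      (A := 2 * (2 * a + 2 * b) + 2 * -a) (B := -(2 * a + 2 * b))
      (C := 2 * (2 * c + 2 * d) + 2 * -c) (D := -(2 * c + 2 * d))
      (by ring) (by ring) (by ring) (by ring),
    V_scale (F := F) (a := a) (b := b) (c := c) (d := d) h (-2) (by decide)
      (A := 2 * -a) (B := -(2 * a + 2 * b) - 2 * -a)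
      (C := 2 * -c) (D := -(2 * c + 2 * d) - 2 * -c)
      (by ring) (by ring) (by ring) (by ring)] at hs
  have e1 : 2 * a + 2 * b + 2 * -a = 2 * b := by ring
  have e2 : -(2 * a + 2 * b) - -a = -a - 2 * b := by ring
  have e3 : 2 * c + 2 * d + 2 * -c = 2 * d := by ring
  have e4 : -(2 * c + 2 * d) - -c = -c - 2 * d := by ring
  rw [e1, e2, e3, e4] at hs
  rw [← hs]
  abel

private theorem sq_half {a b c d : ℤ} (h : ¬ (5 : ℤ) ∣ a * d - b * c)
    (hs : Sq F (2 * a) (2 * b) (2 * c) (2 * d)) : Sq F a b c d := by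
  unfold Sq at hs ⊢
  have h1 : V F (2 * a) (2 * b) (2 * c) (2 * d) = V F a b c d :=
    V_scale h 2 (by decide) rfl rfl rfl rfl
  have h2 : V F (2 * (2 * a) + 2 * (2 * b)) (-(2 * a)) (2 * (2 * c) + 2 * (2 * d)) (-(2 * c)) =
      V F (2 * a + 2 * b) (-a) (2 * c + 2 * d) (-c) :=
    V_scale (ndet h 2 (by decide) (by ring)) 2 (by decide) (by ring) (by ring) (by ring) (by ring)
  have h3 : V F (2 * a + 2 * (2 * b)) (-(2 * a) - 2 * b) (2 * c + 2 * (2 * d))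
      (-(2 * c) - 2 * d) = V F (a + 2 * b) (-a - b) (c + 2 * d) (-c - d) :=
    V_scale (ndet h 1 (by decide) (by ring)) 2 (by decide) (by ring) (by ring) (by ring) (by ring)
  have h4 : V F (2 * (2 * b)) (-(2 * a) - 2 * (2 * b)) (2 * (2 * d)) (-(2 * c) - 2 * (2 * d)) =
      V F (2 * b) (-a - 2 * b) (2 * d) (-c - 2 * d) :=
    V_scale (ndet h 2 (by decide) (by ring)) 2 (by decide) (by ring) (by ring) (by ring) (by ring)
  rw [h1, h2, h3, h4] at hs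
  exact hs

private theorem pt_det {a b c d : ℤ} {x : ZMod (5 ^ r)} {y : ZMod (5 ^ s)}
    (hp : Pt a b c d x y) : ¬ (5 : ℤ) ∣ a * d - b * (5 * c) := by
  intro h
  exact ndm hp.1 hp.2.1 ((dvd_sub_left (⟨b * c, by ring⟩ : (5 : ℤ) ∣ b * (5 * c))).1 h)

private theorem sq0 {a b c d : ℤ} {x : ZMod (5 ^ r)} {y : ZMod (5 ^ s)}
    (hp : Pt a b c d x y) : Sq F a b (5 * c) d := by
  have hd := pt_det hp
  have hm := pt_mul hp (α := 1) (β := 1) (γ := 0) (δ := 1) (by decide) (by decide)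
  unfold Sq
  rw [ev0 hp rfl rfl rfl rfl,
    V_S (F := F) (a := a) (b := a + b) (c := 5 * c) (d := 5 * c + d)
      (ndet hd 1 (by decide) (by ring)) (by ring) (by ring) (by ring) (by ring),
    ev0 hm (by ring) (by ring) (by ring) (by ring),
    ← V_scale (F := F) (a := a + 2 * b) (b := -a - b) (c := 5 * c + 2 * d) (d := -(5 * c) - d)
      (ndet hd 1 (by decide) (by ring)) 2 (by decide) rfl rfl rfl rfl,
    V_S (F := F) (a := 2 * a + 2 * b) (b := a + 2 * b) (c := 10 * c + 2 * d) (d := 5 * c + 2 * d)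
      (ndet hd 2 (by decide) (by ring)) (by ring) (by ring) (by ring) (by ring),
    ev1 hp rfl rfl rfl rfl,
    V_S (F := F) (a := a + 2 * b) (b := b) (c := 5 * c + 2 * d) (d := d)
      (ndet hd 1 (by decide) (by ring)) (by ring) (by ring) (by ring) (by ring),
    ev2 hp rfl rfl rfl rfl]
  unfold kH tr5
  abel

private theorem sq2 (hR : RelH F) {a b c d : ℤ} {x : ZMod (5 ^ r)} {y : ZMod (5 ^ s)}
    (hp : Pt a b c d x y) : Sq F (a + 2 * b) b (5 * c + 2 * d) d := by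
  have m1 := pt_mul hp (α := 4) (β := -1) (γ := 2) (δ := -2) (by decide) (by decide)
  have m2 := pt_mul hp (α := 3) (β := -1) (γ := 2) (δ := -3) (by decide) (by decide)
  have m3 := pt_mul hp (α := 2) (β := -1) (γ := 2) (δ := -4) (by decide) (by decide)
  unfold Sq
  rw [ev2 hp rfl rfl rfl rfl, ev2 m1 (by ring) (by ring) (by ring) (by ring),
    ev2 m2 (by ring) (by ring) (by ring) (by ring),
    ev2 m3 (by ring) (by ring) (by ring) (by ring)]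
  exact hR.1 x y

private theorem sq1 (hR : RelH F) {a b c d : ℤ} {x : ZMod (5 ^ r)} {y : ZMod (5 ^ s)}
    (hp : Pt a b c d x y) :
    Sq F (2 * a + 2 * b) (a + 2 * b) (10 * c + 2 * d) (5 * c + 2 * d) := by
  have m1 := pt_mul hp (α := 8) (β := -5) (γ := 2) (δ := -6) (by decide) (by decide)
  have m2 := pt_mul hp (α := 7) (β := -5) (γ := 2) (δ := -7) (by decide) (by decide)
  have m3 := pt_mul hp (α := 6) (β := -5) (γ := 2) (δ := -8) (by decide) (by decide)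
  unfold Sq
  rw [ev1 hp rfl rfl rfl rfl, ev1 m1 (by ring) (by ring) (by ring) (by ring),
    ev1 m2 (by ring) (by ring) (by ring) (by ring),
    ev1 m3 (by ring) (by ring) (by ring) (by ring)]
  have h := hR.2 x y
  rw [← h]
  unfold tr5
  abel

private theorem sq_all (hR : RelH F) {a b c d : ℤ} (h : ¬ (5 : ℤ) ∣ a * d - b * c) :
    Sq F a b c d := by
  have k0 : ∀ {a b c d : ℤ}, ¬ (5 : ℤ) ∣ a * d - b * c → (5 : ℤ) ∣ c → Sq F a b c d := by
    intro a b c d h hc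
    obtain ⟨c', rfl⟩ := hc
    have hr := res (a := a) (b := b) (c := c') (d := d) (ndet h 1 (by decide) (by ring))
    obtain ⟨x, y, hp⟩ := pt_mk r s (b := b) (c := c') hr.1 hr.2
    exact sq0 hp
  have k4 : ∀ {a b c d : ℤ}, ¬ (5 : ℤ) ∣ a * d - b * c → (5 : ℤ) ∣ c + d → Sq F a b c d := by
    intro a b c d h hc
    exact sq_rot h (k0 (ndet h 2 (by decide) (by ring)) (by omega))
  have k3 : ∀ {a b c d : ℤ}, ¬ (5 : ℤ) ∣ a * d - b * c → (5 : ℤ) ∣ c - 3 * d → Sq F a b c d := by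
    intro a b c d h hc
    exact sq_rot h (k4 (ndet h 2 (by decide) (by ring)) (by omega))
  have k5 : ∀ {a b c d : ℤ}, ¬ (5 : ℤ) ∣ a * d - b * c → (5 : ℤ) ∣ d → Sq F a b c d := by
    intro a b c d h hc
    exact sq_rot h (k3 (ndet h 2 (by decide) (by ring)) (by omega))
  rcases cl c d with ⟨⟨c', hc⟩, ⟨d', hd⟩⟩ | p | p | p | p | p | p
  · exact absurd ⟨a * d' - b * c', by rw [hc, hd]; ring⟩ h
  · exact k0 h p
  · obtain ⟨c', hc'⟩ := p
    obtain rfl : c = 5 * c' + 2 * d := by omega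
    obtain ⟨a', rfl⟩ : ∃ a', a = a' + 2 * b := ⟨a - 2 * b, by ring⟩
    have hr := res (a := a') (b := b) (c := c') (d := d) (ndet h 1 (by decide) (by ring))
    obtain ⟨x, y, hp⟩ := pt_mk r s (b := b) (c := c') hr.1 hr.2
    exact sq2 hR hp
  · obtain ⟨c', hc'⟩ := p
    obtain rfl : c = 5 * c' + d := by omega
    have hr := res (a := 2 * a - 2 * b) (b := -a + 2 * b) (c := 2 * c')
      (d := -(5 * c' + d) + 2 * d) (ndet h 2 (by decide) (by ring))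
    obtain ⟨x, y, hp⟩ := pt_mk r s (b := -a + 2 * b) (c := 2 * c') hr.1 hr.2
    have h1 := sq1 hR hp
    have e1 : 2 * (2 * a - 2 * b) + 2 * (-a + 2 * b) = 2 * a := by ring
    have e2 : 2 * a - 2 * b + 2 * (-a + 2 * b) = 2 * b := by ring
    have e3 : 10 * (2 * c') + 2 * (-(5 * c' + d) + 2 * d) = 2 * (5 * c' + d) := by ring
    have e4 : 5 * (2 * c') + 2 * (-(5 * c' + d) + 2 * d) = 2 * d := by ring
    rw [e1, e2, e3, e4] at h1
    exact sq_half h h1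
  · exact k5 h p
  · exact k4 h p
  · exact k3 h p

end

private theorem one5 {m : ℤ} (h : m = 1) : ¬ (5 : ℤ) ∣ m := by
  rw [h]
  decide

/-- Module ExA. -/
theorem hExA (_ht : S5Trm) : TExA := by
  intro R _ r s F hR
  refine ⟨V F, ?_, ?_, ?_, ?_, ?_⟩
  · intro a b c d h _
    exact V_scale (one5 h) (-1) (by decide) (by ring) (by ring) (by ring) (by ring)
  · intro a b c d h _
    have h1 := sq_all hR (one5 h)
    unfold Sq at h1
    have t1 : V F (2 * a + 2 * b) (-a) (2 * c + 2 * d) (-c) = -V F a (a + b) c (c + d) :=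
      V_S (ndet (one5 h) 1 (by decide) (by ring)) (by ring) (by ring) (by ring) (by ring)
    have t2 : V F (2 * b) (-a - 2 * b) (2 * d) (-c - 2 * d) = -V F (a + 2 * b) b (c + 2 * d) d :=
      V_S (ndet (one5 h) 1 (by decide) (by ring)) (by ring) (by ring) (by ring) (by ring)
    rw [t1, t2] at h1
    have e1 : -(a + b) = -a - b := by ring
    have e2 : -(c + d) = -c - d := by ring
    rw [e1, e2]
    rw [← sub_eq_zero, ← h1]
    abel
  · intro α β γ δ a b c d hg _ hβ hγ h _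
    obtain ⟨γ', hγ'⟩ := hγ
    have hr := res (a := α) (b := β * 5 ^ s) (c := γ') (d := δ) (one5 (by
      rw [← hg, hγ']; ring))
    exact V_left (one5 h) hr.1 hr.2 hβ ⟨γ', hγ'⟩ rfl rfl rfl rfl
  · intro α β γ δ a b c d hg hβ hγ h
    obtain ⟨γ', hγ'⟩ := hγ
    have hr := res (a := 2 * α) (b := β * 5 ^ s) (c := γ') (d := δ) (one5 (by
      rw [← hg, hγ']; ring))
    have hd : ¬ (5 : ℤ) ∣ 2 * δ := ndm (by decide) hr.2
    have hN : ¬ (5 : ℤ) ∣ a * d - b * (2 * c) := one5 (by linear_combination h)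
    have hdet : (2 * α * a + β * (2 * c)) * (2 * γ * b + 2 * δ * d) -
        (2 * α * b + β * d) * (2 * γ * a + 2 * δ * (2 * c)) =
        2 * (a * d - b * (2 * c)) := by
      linear_combination 2 * (a * d - b * (2 * c)) * hg
    have h1 : V F (2 * α * a + β * (2 * c)) (2 * α * b + β * d) (2 * γ * a + 2 * δ * (2 * c))
        (2 * γ * b + 2 * δ * d) = V F a b (2 * c) d :=
      V_left hN hr.1 hd hβ ⟨2 * γ', by rw [hγ']; ring⟩ rfl rfl rfl rfl
    rw [← h1]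
    have hN2 : ¬ (5 : ℤ) ∣ (2 * α * a + β * (2 * c)) * (2 * γ * b + 2 * δ * d) -
        (2 * α * b + β * d) * (2 * γ * a + 2 * δ * (2 * c)) := by
      rw [hdet]
      exact ndm (by decide) hN
    rw [← V_S (F := F) hN2 rfl rfl rfl rfl]
    symm
    refine V_scale ?_ 2 (by decide) (by ring) (by ring) (by ring) (by ring)
    have : (2 * α * b + β * d) * -(γ * a + 2 * δ * c) - -(α * a + β * c) * (2 * (γ * b + δ * d)) =
        1 := by
      linear_combination (a * d - 2 * b * c) * hg + h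
    rw [this]
    decide
  · intro x y a b c d h _ hx hy
    have hr := res (a := a) (b := b) (c := c) (d := d) (one5 (by linear_combination h))
    have hp : Pt a b c d x y := ⟨hr.1, hr.2, hx, hy⟩
    exact ⟨ev0 hp rfl rfl rfl rfl, ev2 hp rfl rfl rfl rfl⟩

end Pool.Agent.Helper70.TH
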